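import Pool.Agent.TH548.Frame

set_option autoImplicit false

/-!
# The length of the Frenet frame of a nondegenerate closed curve

For every `n ≥ 4` the length of the Frenet frame of every nondegenerate closed curve in `ℝⁿ`
is greater than `2π μ(n)`. The number `μ(n)` is the least `m ≥ 1` such that every
`C^∞`-neighbourhood of the `m` times traversed circle contains a nondegenerate closed curve;
it is shown to exist (it is `1`).
-/

open scoped ContDiff Real

namespace Pool.Agent.Results.MP_f07be6_gt.FrameLength

open Pool.Agent.TH548.Mu Pool.Agent.TH548.Frame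

/-- For every `n ≥ 4` there is a least `m = μ(n) ≥ 1` such that every `C^∞`-neighbourhood of `c_m`
contains a nondegenerate closed curve, and the Frenet frame of every nondegenerate closed curve in
`ℝⁿ` has length greater than `2π μ(n)`. -/
theorem result (n : ℕ) (hn : 4 ≤ n) :
    ∃ m : ℕ, IsLeast {m : ℕ | 1 ≤ m ∧ Perturbable n m} m ∧
      ∀ γ : ℝ → EuclideanSpace ℝ (Fin n), IsClosedCurve γ → Nondegenerate γ →
        2 * π * m < frameLength γ := by
  refine ⟨1, isLeast_one n hn, fun γ hγ hd => ?_⟩
  rw [Nat.cast_one, mul_one]
  exact two_pi_lt (by omega) γ hγ hd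

end Pool.Agent.Results.MP_f07be6_gt.FrameLength
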