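import Pool.Agent.TH548.Mu

set_option autoImplicit false

/-!
# Multiply traversed circles and nondegenerate curves in dimension at least four

For every `n ≥ 4` the unit circle, traversed once, is a `C^∞` limit of nondegenerate closed curves
in `ℝⁿ`, so `μ(n) = 1`.

For `n = 2j` one perturbs to a product of circles with different frequencies. For `n = 2j + 3` one
adds three coordinates `δ u` to a product of `j` circles with frequencies `k₁ = 1, …, k_j`, where
`(D² + k₁²) ⋯ (D² + k_j²) D u = g` and `g = (1 + b cos 5t) (cos 7t, sin 7t, 1 + a cos 5t)` with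
`ab = -2`, `2 < a < 49/24`: the Wronskian of `g` is `7 (1 + b cos 5t)³ (49 + 24 a cos 5t) > 0`, and
`g` has only the modes `2, 5, 7, 10, 12`.
-/

open scoped ContDiff Real

namespace Pool.Agent.Results.MP_f07be6_gt.MuEqOne

open Pool.Agent.TH548.Mu

/-- For every `n ≥ 4`, the least `m ≥ 1` such that every `C^∞`-neighbourhood of the `m` times
traversed plane unit circle `c_m` contains a nondegenerate closed curve in `ℝⁿ` is `1`. -/
theorem result (n : ℕ) (hn : 4 ≤ n) : IsLeast {m : ℕ | 1 ≤ m ∧ Perturbable n m} 1 :=
  isLeast_one n hn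

end Pool.Agent.Results.MP_f07be6_gt.MuEqOne
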